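import Mathlib
import Pool.Agent.P.MP_e671d4_pr.Ren5

set_option autoImplicit false

namespace Pool.Agent.Results.MP_e671d4_pr.RenyiRange

open MeasureTheory Pool.Agent.P.MP_e671d4_pr

/-- The density of `∑ i, a i * X i` for independent `X i` uniform on `[-1, 1]`. -/
noncomputable def dens {n : ℕ} (a : Fin n → ℝ) (y : ℝ) : ℝ :=
  (((Measure.pi fun _ : Fin n => ProbabilityTheory.cond (volume : Measure ℝ)
    (Set.Icc (-1 : ℝ) 1)).map fun x : Fin n → ℝ => ∑ i, a i * x i).rnDeriv volume y).toReal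

/-- The Renyi entropy of order `p` of a density; order one is the Shannon entropy. -/
noncomputable def renyi (p : ℝ) (f : ℝ → ℝ) : ℝ :=
  if p = 1 then ∫ y, Real.negMulLog (f y) else Real.log (∫ y, f y ^ p) / (1 - p)

/-- Equal weights maximize the Renyi entropy of order `p` among unit vectors of length `n`. -/
def EqMax (p : ℝ) (n : ℕ) : Prop :=
  ∀ a : Fin n → ℝ, ∑ i, a i ^ 2 = 1 →
    renyi p (dens a) ≤ renyi p (dens fun _ : Fin n => 1 / Real.sqrt (n : ℝ))

/-- Equal weights maximize the Renyi entropy exactly for the orders up to one. -/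
theorem result (p : ℝ) (hp : 0 < p) : List.TFAE
    [p ≤ 1, ∀ n : ℕ, 1 ≤ n → EqMax p n, ∀ N : ℕ, ∃ n : ℕ, N ≤ n ∧ EqMax p n] := by
  tfae_have 1 → 2 := fun h n hn a ha => by
    rcases h.eq_or_lt with rfl | h
    · simp only [renyi, if_true]
      exact main n hn a ha
    · simp only [renyi, if_neg h.ne]
      exact div_le_div_of_nonneg_right (Real.log_le_log (ren_law_pos hp a (by simp [ha]))
        (ren_main hp (sub_pos.2 h) (by ring) n hn a ha)) (sub_pos.2 h).le
  tfae_have 2 → 3 := fun h N => ⟨N + 1, by omega, h _ (by omega)⟩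
  tfae_have 3 → 1 := fun h => not_lt.1 fun h1 => by
    obtain ⟨N, hN⟩ := ren_fail h1
    obtain ⟨n, hn, H⟩ := h N
    obtain ⟨a, ha, hlt⟩ := hN n hn
    have := H a ha
    simp only [renyi, if_neg h1.ne'] at this
    exact absurd this (not_le.2 (div_lt_div_right_of_neg (sub_neg.2 h1) |>.2
      (Real.log_lt_log (ren_law_pos hp a (by simp [ha])) hlt)))
  tfae_finish

end Pool.Agent.Results.MP_e671d4_pr.RenyiRange
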